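import Pool.Agent.H261R3.LN.LStmts

set_option autoImplicit false

/-! # Task LBSquare: the two end tracks of a homotopy to a constant map -/

open scoped NNReal ENNReal unitInterval

namespace Pool.Agent.H023R3.LM

open Pool.Agent.H261R3.LN Pool.Agent.H261R3.LD

/-- the identity path of the unit interval -/
def idPath : Path (0 : I) (1 : I) where
  toFun := id
  continuous_toFun := continuous_id
  source' := rfl
  target' := rfl

theorem taskLBSquare : TaskLBSquare := by
  intro S X _ _ c f q H R hR ρ hρ α hα
  have hcont : Continuous fun s : I => f (ρ s) := by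
    have : (fun s : I => f (ρ s)) = fun s => α s := funext fun s => (hα s).symm
    rw [this]
    exact α.continuous
  let fc : C(I, S) := ⟨fun s => f (ρ s), hcont⟩
  let gc : C(I, S) := ContinuousMap.const I q
  have hjoint : Continuous fun p : I × I => H.F p.1 (ρ p.2) := by
    have h1 : Continuous fun p : I × I => H.F p.2 (ρ p.1) := by
      apply continuous_prod_of_continuous_lipschitzWith (fun p : I × I => H.F p.2 (ρ p.1))
        (c * R.toNNReal)
      · intro s
        exact H.cont (ρ s)
      · intro t
        apply LipschitzWith.of_dist_le_mul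
        intro s s'
        have h2 := (H.lip t).dist_le_mul (ρ s) (ρ s')
        have h3 := hρ s s'
        have h4 : dist s s' = |(s : ℝ) - s'| := rfl
        rw [h4, NNReal.coe_mul, Real.coe_toNNReal _ hR.le, mul_assoc]
        exact h2.trans (mul_le_mul_of_nonneg_left h3 c.2)
    exact h1.comp continuous_swap
  let F : ContinuousMap.Homotopy fc gc :=
    { toFun := fun p => H.F p.1 (ρ p.2)
      continuous_toFun := hjoint
      map_zero_left := fun s => by
        show H.F 0 (ρ s) = f (ρ s)
        rw [H.start]
      map_one_left := fun s => by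
        show H.F 1 (ρ s) = q
        rw [H.finish] }
  let a : Path (f (ρ 0)) q := F.evalAt 0
  let b : Path (f (ρ 1)) q := F.evalAt 1
  refine ⟨a, b, fun t => rfl, fun t => rfl, ?_⟩
  have h := Path.Homotopic.map_trans_evalAt F idPath
  have h1 : (idPath.map (map_continuous fc) : Path (f (ρ 0)) (f (ρ 1))) = α := by
    ext s
    exact (hα s).symm
  have h2 : (idPath.map (map_continuous gc) : Path q q) = Path.refl q := by
    ext s
    rfl
  have h3 : (α.trans b).Homotopic (a.trans (Path.refl q)) := by
    rw [← h1, ← h2]
    exact h
  have e1 : α.Homotopic (α.trans (Path.refl _)) := ⟨(Path.Homotopy.transRefl α).symm⟩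
  have e2 : (α.trans (Path.refl _)).Homotopic (α.trans (b.trans b.symm)) :=
    (Path.Homotopic.refl α).hcomp ⟨Path.Homotopy.reflTransSymm b⟩
  have e3 : (α.trans (b.trans b.symm)).Homotopic ((α.trans b).trans b.symm) :=
    ⟨(Path.Homotopy.transAssoc α b b.symm).symm⟩
  have e4 : ((α.trans b).trans b.symm).Homotopic ((a.trans (Path.refl q)).trans b.symm) :=
    h3.hcomp (Path.Homotopic.refl _)
  have e5 : ((a.trans (Path.refl q)).trans b.symm).Homotopic (a.trans b.symm) :=
    Path.Homotopic.hcomp ⟨Path.Homotopy.transRefl a⟩ (Path.Homotopic.refl _)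
  exact e1.trans (e2.trans (e3.trans (e4.trans e5)))

end Pool.Agent.H023R3.LM
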